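import Pool.Agent.Y262.EL.Final
import Pool.Agent.Y80.EL.Log
import Pool.Agent.Y168.EL.Pot1
import Pool.Agent.Y168.EL.Pot2
import Pool.Agent.Y168.EL.Pot3
import Pool.Agent.Y498.EL.Rep
import Pool.Agent.Y700.EL.Regu
import Pool.Agent.Y585.EL.C1
import Pool.Agent.Y338.EL.Grad
import Pool.Agent.Y848.EL.CVM
import Pool.Agent.Y361.EL.Wk
import Pool.Agent.Y65.EL.Glo
import Pool.Agent.Y923.EL.Ell

/-!
# Project EL: assembly

The proofs of the parts are by helper80 (fundamental solution), helper168 (potentials), helper498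
(representation formula), helper700 (interior regularity), helper585 (`C¹` functions), helper338
(gradient), helper848 (integration), helper361 (weak equation), helper65 (globalization), helper923
(assembly of the regularity theorem).
-/

set_option autoImplicit false

noncomputable section

namespace Pool.Agent.Y262.EL

open Pool.Agent.Y262.EG Pool.Agent.Y262.EX

theorem tRegu : StRegu := Pool.Agent.Y700.EL.regu (Pool.Agent.Y168.EL.pot2 Pool.Agent.Y80.EL.logT)
  (Pool.Agent.Y168.EL.pot3 Pool.Agent.Y80.EL.logT)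
  (Pool.Agent.Y498.EL.rep Pool.Agent.Y80.EL.logT (Pool.Agent.Y168.EL.pot1 Pool.Agent.Y80.EL.logT))

theorem tGrad : StGrad := Pool.Agent.Y338.EL.gradT Pool.Agent.Y585.EL.c1T

theorem tCVM : StCVM := Pool.Agent.Y848.EL.cvM

theorem tWk : StWk := Pool.Agent.Y361.EL.Wk.wk Pool.Agent.Y585.EL.c1T tGrad tCVM

theorem tEll : StEll := Pool.Agent.Y923.EL.ell tWk tRegu (Pool.Agent.Y65.EL.glo tCVM)

theorem concl2 : Concl2 := final2 tEll tCVM

end Pool.Agent.Y262.EL
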