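import Pool.Agent.Y262.EX.Def

/-!
# Project EL: classical eigenfunctions
-/

set_option autoImplicit false

open scoped ContDiff

noncomputable section

namespace Pool.Agent.Y262.EL

open Pool.Agent.Y262.EG

/-- `u` is a smooth real eigenfunction with the eigenvalue `lam` of the (nonnegative) Laplace-Beltrami
operator `- exp (-2 φ) (∂² / ∂x² + ∂² / ∂y²)` of the surface which is covered by the plane domain `Ω`
with the metric `exp (2 φ) |dz|²` by means of the map `pr` -/
def IsEf {M : Type} (Ω : Set ℂ) (φ : ℂ → ℝ) (pr : ℂ → M) (lam : ℝ) (u : M → ℝ) : Prop :=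
  ContDiffOn ℝ ∞ (fun z => u (pr z)) Ω ∧
    ∀ z ∈ Ω, -(Real.exp (-2 * φ z) * (px (px fun z => u (pr z)) z + py (py fun z => u (pr z)) z)) =
      lam * u (pr z)

end Pool.Agent.Y262.EL
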