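import Pool.Agent.Y262.EX.Stm

/-!
# Project EL: regularity of the eigenfunctions

Weak eigenfunctions (in the sense of project QE) on a surface which is covered by a plane domain with
a smooth conformal metric are smooth and satisfy the eigenvalue equation.
-/

set_option autoImplicit false

open Set Filter Topology MeasureTheory
open scoped ContDiff ComplexConjugate Real

noncomputable section

namespace Pool.Agent.Y262.EL

open Pool.Agent.Y262.EG Pool.Agent.Y262.EX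

/-- the Laplacian of the plane -/
def lap (v : ℂ → ℝ) (z : ℂ) : ℝ := px (px v) z + py (py v) z

/-- test functions -/
def Tf (B : Set ℂ) (v : ℂ → ℝ) : Prop := ContDiff ℝ ∞ v ∧ HasCompactSupport v ∧ tsupport v ⊆ B

/-- the logarithmic potential -/
def pot (f : ℂ → ℝ) (z : ℂ) : ℝ := (2 * π)⁻¹ * ∫ y, Real.log ‖z - y‖ * f y

/-- `U` is a weak solution of `Δ U + a U = 0` in the ball -/
def WkEq (z0 : ℂ) (r : ℝ) (a U : ℂ → ℝ) : Prop :=
  ∀ v : ℂ → ℝ, Tf (Metric.ball z0 r) v → ∫ z, U z * (lap v z + a z * v z) = 0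

/-- the fundamental solution -/
def StLog : Prop :=
  (∀ R : ℝ, IntegrableOn (fun y : ℂ => (Real.log ‖y‖) ^ 2) (Metric.ball 0 R) ∧
    IntegrableOn (fun y : ℂ => Real.log ‖y‖) (Metric.ball 0 R) ∧
    IntegrableOn (fun y : ℂ => ‖y‖⁻¹) (Metric.ball 0 R)) ∧
  ∀ g : ℂ → ℝ, Tf univ g → ∀ z, ∫ y, Real.log ‖z - y‖ * lap g y = 2 * π * g z

/-- potentials of test functions -/
def StPot1 : Prop :=
  ∀ ψ : ℂ → ℝ, Tf univ ψ → ContDiff ℝ ∞ (pot ψ) ∧ ∀ z, lap (pot ψ) z = ψ z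

/-- potentials of square integrable functions are continuous -/
def StPot2 : Prop :=
  ∀ f : ℂ → ℝ, MemLp f 2 volume → HasCompactSupport f → Continuous (pot f)

/-- potentials are smoother than their densities -/
def StPot3 : Prop :=
  ∀ (k : ℕ) (f : ℂ → ℝ), ContDiff ℝ k f → HasCompactSupport f → ContDiff ℝ (k + 1 : ℕ) (pot f)

/-- the representation formula -/
def StRep : Prop :=
  ∀ (z0 : ℂ) (r : ℝ) (a U : ℂ → ℝ), 0 < r → ContDiffOn ℝ ∞ a (Metric.ball z0 r) →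
    MemLp U 2 (volume.restrict (Metric.ball z0 r)) → WkEq z0 r a U →
    ∀ r1 r2 : ℝ, 0 < r1 → r1 < r2 → r2 < r → ∀ η : ℂ → ℝ, Tf (Metric.ball z0 r) η →
    (∀ z ∈ Metric.ball z0 r2, η z = 1) →
    ∃ S : ℂ → ℝ, ContDiffOn ℝ ∞ S (Metric.ball z0 r1) ∧
      ∀ᵐ z ∂volume.restrict (Metric.ball z0 r1), U z = S z - pot (fun y => a y * η y * U y) z

/-- interior regularity -/
def StRegu : Prop :=
  ∀ (z0 : ℂ) (r : ℝ) (a U : ℂ → ℝ), 0 < r → ContDiffOn ℝ ∞ a (Metric.ball z0 r) →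
    MemLp U 2 (volume.restrict (Metric.ball z0 r)) → WkEq z0 r a U →
    ∃ V : ℂ → ℝ, ContDiffOn ℝ ∞ V (Metric.ball z0 r) ∧
      (∀ᵐ z ∂volume.restrict (Metric.ball z0 r), U z = V z) ∧
      ∀ z ∈ Metric.ball z0 r, lap V z + a z * V z = 0

/-- `C¹` functions on the surface -/
def StC1 : Prop :=
  ∀ (M P : Type) [MetricSpace M] [CompactSpace M] [MetricSpace P] [CompactSpace P]
    [MeasurableSpace M] [BorelSpace M] (Ω : Set ℂ) (φ : ℂ → ℝ) (pr : ℂ → M) (q : Y → P)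
    (D : Pool.Agent.Y262.QE.Data M) (μ : Measure M), IsUT Ω φ pr q → D.IsSurf μ →
    Compat D Ω φ pr → ∀ F : M → ℝ, (D.C1 F ↔ ContDiffOn ℝ 1 (fun z => F (pr z)) Ω)

/-- the gradient in the covering -/
def StGrad : Prop :=
  ∀ (M P : Type) [MetricSpace M] [CompactSpace M] [MetricSpace P] [CompactSpace P]
    [MeasurableSpace M] [BorelSpace M] (Ω : Set ℂ) (φ : ℂ → ℝ) (pr : ℂ → M) (q : Y → P)
    (D : Pool.Agent.Y262.QE.Data M) (μ : Measure M), IsUT Ω φ pr q → D.IsSurf μ →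
    Compat D Ω φ pr → ∀ F G : M → ℝ, D.C1 F → D.C1 G → ∀ z ∈ Ω,
      inner ℝ (D.gr F (pr z)) (D.gr G (pr z)) = Real.exp (-2 * φ z) *
        (px (fun z => F (pr z)) z * px (fun z => G (pr z)) z +
          py (fun z => F (pr z)) z * py (fun z => G (pr z)) z)

/-- integration on the surface -/
def StCVM : Prop :=
  ∀ (M P : Type) [MetricSpace M] [CompactSpace M] [MetricSpace P] [CompactSpace P]
    [MeasurableSpace M] [BorelSpace M] (Ω : Set ℂ) (φ : ℂ → ℝ) (pr : ℂ → M) (q : Y → P)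
    (μ : Measure M), IsUT Ω φ pr q → IsArea Ω φ pr μ →
    (∀ B : Set ℂ, MeasurableSet B → B ⊆ Ω → InjOn pr B → MeasurableSet (pr '' B) ∧
      (∀ G : M → ENNReal, Measurable G → ∫⁻ x in pr '' B, G x ∂μ =
        ∫⁻ z in B, G (pr z) * ENNReal.ofReal (Real.exp (2 * φ z))) ∧
      ∀ G : M → ℝ, Measurable G → ∫ x in pr '' B, G x ∂μ =
        ∫ z in B, G (pr z) * Real.exp (2 * φ z)) ∧
    IsFiniteMeasure μ ∧ (∀ B : Set ℂ, MeasurableSet B → B ⊆ Ω → volume B = 0 → μ (pr '' B) = 0) ∧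
    ∀ h : M → ℝ, Continuous h → ContDiffOn ℝ ∞ (fun z => h (pr z)) Ω → ∀ s : ℝ,
      IsArea Ω (fun z => φ z + s / 2 * h (pr z)) pr
        (Pool.Agent.Y262.QE.wm μ fun x => Real.exp (s * h x))

/-- eigenfunctions are weak solutions in the covering -/
def StWk : Prop :=
  ∀ (M P : Type) [MetricSpace M] [CompactSpace M] [MetricSpace P] [CompactSpace P]
    [MeasurableSpace M] [BorelSpace M] (Ω : Set ℂ) (φ : ℂ → ℝ) (pr : ℂ → M) (q : Y → P)
    (D : Pool.Agent.Y262.QE.Data M) (μ : Measure M), IsUT Ω φ pr q → D.IsSurf μ →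
    Compat D Ω φ pr → IsArea Ω φ pr μ → ∀ (lam : ℝ) (u : M → ℝ), D.IsEig μ lam u → ∀ z0 ∈ Ω,
    ∃ r : ℝ, 0 < r ∧ Metric.ball z0 r ⊆ Ω ∧ InjOn pr (Metric.ball z0 r) ∧
      MemLp (fun z => u (pr z)) 2 (volume.restrict (Metric.ball z0 r)) ∧
      WkEq z0 r (fun z => lam * Real.exp (2 * φ z)) (fun z => u (pr z))

/-- from local to global regularity -/
def StGlo : Prop :=
  ∀ (M P : Type) [MetricSpace M] [CompactSpace M] [MetricSpace P] [CompactSpace P]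
    [MeasurableSpace M] [BorelSpace M] (Ω : Set ℂ) (φ : ℂ → ℝ) (pr : ℂ → M) (q : Y → P)
    (μ : Measure M), IsUT Ω φ pr q → IsArea Ω φ pr μ → ∀ (lam : ℝ) (u : M → ℝ),
    (∀ z0 ∈ Ω, ∃ (r : ℝ) (V : ℂ → ℝ), 0 < r ∧ Metric.ball z0 r ⊆ Ω ∧
      InjOn pr (Metric.ball z0 r) ∧ ContDiffOn ℝ ∞ V (Metric.ball z0 r) ∧
      (∀ᵐ z ∂volume.restrict (Metric.ball z0 r), u (pr z) = V z) ∧
      ∀ z ∈ Metric.ball z0 r, lap V z + lam * Real.exp (2 * φ z) * V z = 0) →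
    ∃ v : M → ℝ, (∀ᵐ x ∂μ, u x = v x) ∧ ContDiffOn ℝ ∞ (fun z => v (pr z)) Ω ∧
      ∀ z ∈ Ω, -(Real.exp (-2 * φ z) * lap (fun z => v (pr z)) z) = lam * v (pr z)

/-- weak eigenfunctions are smooth eigenfunctions -/
def StEll : Prop :=
  ∀ (M P : Type) [MetricSpace M] [CompactSpace M] [MetricSpace P] [CompactSpace P]
    [MeasurableSpace M] [BorelSpace M] (Ω : Set ℂ) (φ : ℂ → ℝ) (pr : ℂ → M) (q : Y → P)
    (D : Pool.Agent.Y262.QE.Data M) (μ : Measure M), IsUT Ω φ pr q → D.IsSurf μ →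
    Compat D Ω φ pr → IsArea Ω φ pr μ → ∀ (lam : ℝ) (u : M → ℝ), D.IsEig μ lam u →
    ∃ v : M → ℝ, (∀ᵐ x ∂μ, u x = v x) ∧ ContDiffOn ℝ ∞ (fun z => v (pr z)) Ω ∧
      ∀ z ∈ Ω, -(Real.exp (-2 * φ z) * lap (fun z => v (pr z)) z) = lam * v (pr z)

end Pool.Agent.Y262.EL
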