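import Pool.Agent.Y262.EL.Def
import Pool.Agent.Y262.EL.Stm
import Pool.Agent.Y262.EX.All2

/-!
# Project EL: the final theorem with classical eigenfunctions
-/

set_option autoImplicit false

open Set Filter Topology MeasureTheory
open scoped ContDiff ComplexConjugate Real

noncomputable section

namespace Pool.Agent.Y262.EL

open Pool.Agent.Y262.EG Pool.Agent.Y262.EX

/-- There is a closed surface of nonpositive curvature with ergodic geodesic flow and a sequence of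
normalized eigenfunctions of the Laplacian which is not equidistributed. -/
def Concl2 : Prop :=
  ∃ (M P : Type) (_ : MetricSpace M) (_ : CompactSpace M) (_ : ConnectedSpace M)
    (_ : MeasurableSpace M) (_ : BorelSpace M) (_ : MetricSpace P) (_ : CompactSpace P)
    (_ : MeasurableSpace P) (_ : BorelSpace P) (Ω : Set ℂ) (φ : ℂ → ℝ) (pr : ℂ → M) (q : Y → P)
    (μ : Measure M) (m : Measure P) (Fl : ℝ → Y → Y),
    IsUT Ω φ pr q ∧ IsArea Ω φ pr μ ∧ IsLiou Ω φ q m ∧ IsGeo Ω φ Fl ∧ (∀ z ∈ Ω, curv φ z ≤ 0) ∧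
    Erg Ω q m Fl ∧
    ∃ (u : ℕ → M → ℝ) (lam : ℕ → ℝ), (∀ j, IsEf Ω φ pr (lam j) (u j)) ∧
      Tendsto lam atTop atTop ∧ (∀ j, ∫ x, (u j x) ^ 2 ∂μ = 1) ∧
      ∃ O : Set M, IsOpen O ∧ μ (frontier O) = 0 ∧
        ¬ Tendsto (fun j => ∫ x in O, (u j x) ^ 2 ∂μ) atTop (𝓝 (μ.real O / μ.real univ))

open Pool.Agent.Y262.QE in
theorem final2 (hEll : StEll) (hCVM : StCVM) : Concl2 := by
  obtain ⟨g, c1, C, hP⟩ := tProf
  have hA : Act Gq Om ac := tAct
  obtain ⟨hI, hconj⟩ := tPhi2 g c1 C hP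
  obtain ⟨M, iM, cM, pr, hpr⟩ := Pool.Agent.Y338.EX.qM Pool.Agent.Y749.EX.top Gq Om ac hA
  obtain ⟨P, iP, cP, q, hq⟩ := Pool.Agent.Y848.EX.qP Pool.Agent.Y749.EX.top Gq Om ac hA
    (fun γ z hz => (hI.2 γ z hz).1)
  let _ : MeasurableSpace M := borel M
  have _ : BorelSpace M := ⟨rfl⟩
  let _ : MeasurableSpace P := borel P
  have _ : BorelSpace P := ⟨rfl⟩
  have hUT : IsUT Om (phi g c1) pr q :=
    Pool.Agent.Y145.EX.qU Gq Om ac (phi g c1) M P pr q hA hI hpr hq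
  obtain ⟨C', hC⟩ := tClsE g c1 C hP M P pr q hpr hUT
  obtain ⟨σ, hσ⟩ := Pool.Agent.Y658.EX.sigEx Gq M Om ac (phi g c1) pr hpr tConj.1 hconj
    (fun γ => tConj.2 γ)
  obtain ⟨δ'', h, hC2, hhc, hh0, hhσ, hhs, hhz, hhne⟩ :=
    Pool.Agent.Y838.EX.hex M P Om (phi g c1) pr q _ _ _ _ _ g σ hUT hC hσ
  obtain ⟨μ, hμ⟩ :=
    Pool.Agent.Y80.EX.areaEx Pool.Agent.Y749.EX.etale M P Om (phi g c1) pr q hUT
  obtain ⟨D, Φ, hS, hComp, hCyl, hΦ⟩ :=
    tData M P Om (phi g c1) pr q μ _ _ _ _ _ g σ hUT hC2 hμ hσ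
  have hmain := main tFin tConf tEig tCore tPack M μ D hS _ Φ σ hCyl h hhc hh0 hhσ
    (fun z hz => by
      rw [hΦ z hz]
      refine hhz z ⟨?_, ?_⟩
      · have := hC2.posδ; have := hC2.ltδ; have := hz.1; linarith
      · have := hC2.posδ; have := hC2.ltδ; have := hz.2; linarith) hhne
  obtain ⟨s0, hs0, hfam⟩ := tFam M P Om (phi g c1) pr q _ _ _ _ _ g hUT hC2 h hhs hhz
  have hex : ∃ s : ℝ, |s| < s0 ∧ ((D.conf fun x => Real.exp (s * h x)).IsSurf
      (wm μ fun x => Real.exp (s * h x)) ∧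
      ∃ (u : ℕ → M → ℝ) (lam : ℕ → ℝ), Tendsto lam atTop atTop ∧
        (∀ j, (D.conf fun x => Real.exp (s * h x)).IsEig (wm μ fun x => Real.exp (s * h x))
          (lam j) (u j) ∧ ∫ x, (u j x) ^ 2 ∂(wm μ fun x => Real.exp (s * h x)) = 1) ∧
        ∃ O : Set M, IsOpen O ∧ (wm μ fun x => Real.exp (s * h x)) (frontier O) = 0 ∧
          ¬ Tendsto (fun j => ∫ x in O, (u j x) ^ 2 ∂(wm μ fun x => Real.exp (s * h x))) atTop
            (𝓝 ((wm μ fun x => Real.exp (s * h x)).real O /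
              (wm μ fun x => Real.exp (s * h x)).real univ))) := by
    by_contra hcon
    have hnull : volume {s : ℝ | |s| < s0} = 0 := by
      refine measure_mono_null ?_ hmain
      intro s hs hgood
      exact hcon ⟨s, hs, hgood⟩
    have hpos : 0 < volume {s : ℝ | |s| < s0} := by
      refine IsOpen.measure_pos volume ?_ ⟨0, by simpa using hs0⟩
      exact isOpen_lt continuous_abs continuous_const
    exact absurd hnull hpos.ne'
  obtain ⟨s, hs, hsurf, u, lam, hlam, hu, O, hO, hO0, hnot⟩ := hex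
  obtain ⟨hUTs1, hComps⟩ := tUTs M P Om (phi g c1) pr q hUT h hhs s
  obtain ⟨C2, hCs⟩ := hfam s hs
  have hIs : Inva Om (fun z => phi g c1 z + s / 2 * h (pr z)) ac := by
    refine ⟨hUTs1.smooth, fun γ z hz => ⟨(hI.2 γ z hz).1, ?_⟩⟩
    have h1 := (hI.2 γ z hz).2
    have h2 : pr (ac γ z) = pr z := by
      have := (hpr.rel z hz (ac γ z) (hA.maps γ z hz)).2 ⟨γ, rfl⟩
      exact this.symm
    simp only [h2]
    linarith
  obtain ⟨Fl, hFl⟩ := tGeo Gq Om ac _ hA hIs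
  obtain ⟨m, hm⟩ := tLiouEx M P Om _ pr q hUTs1
  have hE := ergodic M P Om _ pr q m Fl _ _ _ _ _ g hUTs1 hm hFl hCs
  have hne : Nonempty M := by
    obtain ⟨z, hz⟩ := hA.ne
    exact ⟨pr z⟩
  have hconn : ConnectedSpace M := { toPreconnectedSpace := ⟨hpr.conn⟩, toNonempty := hne }
  have hμs : IsArea Om (fun z => phi g c1 z + s / 2 * h (pr z)) pr
      (wm μ fun x => Real.exp (s * h x)) :=
    (hCVM M P Om (phi g c1) pr q μ hUT hμ).2.2.2 h hhc hhs s
  set ν : Measure M := wm μ fun x => Real.exp (s * h x) with hν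
  have hv : ∀ j, ∃ v : M → ℝ, (∀ᵐ x ∂ν, u j x = v x) ∧
      ContDiffOn ℝ ∞ (fun z => v (pr z)) Om ∧ ∀ z ∈ Om,
        -(Real.exp (-2 * (phi g c1 z + s / 2 * h (pr z))) * lap (fun z => v (pr z)) z) =
          lam j * v (pr z) := fun j =>
    hEll M P Om _ pr q _ ν hUTs1 hsurf (hComps D hComp) hμs (lam j) (u j) (hu j).1
  choose v hv1 hv2 hv3 using hv
  refine ⟨M, P, iM, cM, hconn, inferInstance, inferInstance, iP, cP, inferInstance, inferInstance,
    Om, fun z => phi g c1 z + s / 2 * h (pr z), pr, q, ν, m, Fl, hUTs1, hμs, hm, hFl, hCs.neg, hE,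
    v, lam, fun j => ⟨hv2 j, hv3 j⟩, hlam, ?_, O, hO, hO0, ?_⟩
  · intro j
    rw [← (hu j).2]
    refine integral_congr_ae ?_
    filter_upwards [hv1 j] with x hx
    rw [hx]
  · intro hT
    apply hnot
    refine hT.congr fun j => ?_
    refine integral_congr_ae ?_
    filter_upwards [ae_restrict_of_ae (hv1 j)] with x hx
    rw [hx]

end Pool.Agent.Y262.EL
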